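import Mathlib
import Pool.Agent.V1123.Rado

/-!
# MP_697e97_al : commutative submonoid width of `End` of the random graph, of `Aut(ℚ, ≤)` and of
`End(ℚ, ≤)`.
-/

namespace Pool.Agent.Results.MP_697e97_al.RadoWidth

open Pool.Agent.V1123.Rado

/-- `M = C₁ C₂ ⋯ Cₙ` for some commutative submonoids `C₁, …, Cₙ` of `M`. -/
def WidthLE (M : Type) [Monoid M] (n : ℕ) : Prop :=
  ∃ C : Fin n → Submonoid M, (∀ i, ∀ x ∈ C i, ∀ y ∈ C i, x * y = y * x) ∧
    ∀ f : M, ∃ c : Fin n → M, (∀ i, c i ∈ C i) ∧ (List.ofFn c).prod = f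

/-- The random graph: a countable graph with the extension property. -/
def IsRandomGraph {V : Type} (G : SimpleGraph V) : Prop :=
  Countable V ∧ ∀ U W : Finset V, Disjoint U W →
    ∃ z, z ∉ U ∧ z ∉ W ∧ (∀ u ∈ U, G.Adj z u) ∧ ∀ w ∈ W, ¬ G.Adj z w

/-! ### The tree model of the random graph -/

/-- Binary trees with labels; `cons x y` is `y` with the additional child `x`. -/
inductive Tr (H : Type) : Type
  | base (h : H) : Tr H
  | cons (x y : Tr H) : Tr H

deriving instance Countable for Tr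

namespace Tr

variable {H : Type}

/-- the list of children -/
def ch : Tr H → List (Tr H)
  | base _ => []
  | cons x y => x :: ch y

/-- the label -/
def tag : Tr H → H
  | base h => h
  | cons _ y => tag y

/-- size -/
def sz : Tr H → ℕ
  | base _ => 0
  | cons x y => sz x + sz y + 1

lemma sz_ch {x y : Tr H} (h : x ∈ ch y) : sz x < sz y := by
  induction y with
  | base h' => simp [ch] at h
  | cons a b _ ih =>
    rcases List.mem_cons.1 h with rfl | h
    · simp only [sz]; omega
    · have := ih h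
      simp only [sz]; omega

/-- The tree with label `h` and children `l`. -/
def mk (h : H) : List (Tr H) → Tr H
  | [] => base h
  | x :: l => cons x (mk h l)

lemma ch_mk (h : H) (l : List (Tr H)) : ch (mk h l) = l := by
  induction l with
  | nil => rfl
  | cons x l ih => simp [mk, ch, ih]

lemma tag_mk (h : H) (l : List (Tr H)) : tag (mk h l) = h := by
  induction l with
  | nil => rfl
  | cons x l ih => simp [mk, tag, ih]

/-- relabelling -/
def map (t : H → H) : Tr H → Tr H
  | base h => base (t h)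
  | cons x y => cons (map t x) (map t y)

lemma ch_map (t : H → H) (x : Tr H) : ch (map t x) = (ch x).map (map t) := by
  induction x with
  | base h => rfl
  | cons a b _ ih => simp [map, ch, ih]

lemma map_mk (t : H → H) (h : H) (l : List (Tr H)) :
    map t (mk h l) = mk (t h) (l.map (map t)) := by
  induction l with
  | nil => rfl
  | cons x l ih => simp [mk, map, ih]

lemma map_map (t t' : H → H) (x : Tr H) : map t (map t' x) = map (t ∘ t') x := by
  induction x with
  | base h => rfl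
  | cons a b iha ihb => simp [map, iha, ihb]

/-- The tree graph. -/
def graph (H : Type) : SimpleGraph (Tr H) where
  Adj x y := x ∈ ch y ∨ y ∈ ch x
  symm := ⟨fun _ _ h => h.symm⟩
  loopless := ⟨fun x h => by rcases h with h | h <;> exact absurd (sz_ch h) (lt_irrefl _)⟩

/-- `map t` as an endomorphism. -/
def hom (t : H → H) : graph H →g graph H where
  toFun := map t
  map_rel' := by
    intro x y h
    rcases h with h | h
    · left
      rw [ch_map]
      exact List.mem_map_of_mem h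
    · right
      rw [ch_map]
      exact List.mem_map_of_mem h

lemma isRado [Countable H] [Nonempty H] : IsRado (graph H) := by
  classical
  refine ⟨inferInstance, fun U W hd => ?_⟩
  obtain ⟨h0⟩ : Nonempty H := inferInstance
  -- a big element
  obtain ⟨N, hN⟩ : ∃ N : ℕ, ∀ x ∈ U ∪ W, sz x < N :=
    ⟨(U ∪ W).sup sz + 1, fun x hx => Nat.lt_succ_of_le (Finset.le_sup (f := sz) hx)⟩
  have hbig : ∀ n : ℕ, ∃ x : Tr H, sz x = n := by
    intro n
    induction n with
    | zero => exact ⟨base h0, rfl⟩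
    | succ n ih =>
      obtain ⟨x, hx⟩ := ih
      exact ⟨cons (base h0) x, by simp [sz, hx]⟩
  obtain ⟨e, he⟩ := hbig N
  have hze : sz e < sz (mk h0 (e :: U.toList)) := sz_ch (by rw [ch_mk]; simp)
  refine ⟨mk h0 (e :: U.toList), ?_, ?_, ?_, ?_⟩
  · intro h
    have := hN _ (Finset.mem_union_left _ h)
    omega
  · intro h
    have := hN _ (Finset.mem_union_right _ h)
    omega
  · intro u hu
    right
    rw [ch_mk]
    simp [hu]
  · rintro w hw (h | h)
    · have h1 := sz_ch h
      have h2 := hN _ (Finset.mem_union_right _ hw)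
      omega
    · rw [ch_mk] at h
      rcases List.mem_cons.1 h with h | h
      · have h2 := hN _ (Finset.mem_union_right _ hw)
        rw [h] at h2
        omega
      · exact Finset.disjoint_left.1 hd (by simpa using h) hw

end Tr

/-! ### Coding endomorphisms -/

section coding

/-- vertices of the base copy of the random graph -/
abbrev V₀ := Tr Unit

/-- the base copy of the random graph -/
abbrev G₀ : SimpleGraph V₀ := Tr.graph Unit

/-- the labels -/
abbrev Lb := V₀ ⊕ Option V₀

/-- the second copy of the random graph -/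
abbrev G₁ : SimpleGraph (Tr Lb) := Tr.graph Lb

/-- children of the code -/
def codeL : V₀ → List (Tr Lb)
  | .base _ => []
  | .cons a b => Tr.mk (Sum.inl a) (codeL a) :: codeL b

/-- the code of a vertex -/
def code (x : V₀) : Tr Lb := Tr.mk (Sum.inl x) (codeL x)

lemma codeL_eq (x : V₀) : codeL x = (Tr.ch x).map code := by
  induction x with
  | base h => rfl
  | cons a b _ ih => simp [codeL, Tr.ch, ih, code]

lemma ch_code (x : V₀) : Tr.ch (code x) = (Tr.ch x).map code := by
  rw [code, Tr.ch_mk, codeL_eq]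

/-- `code` as a homomorphism -/
def codeHom : G₀ →g G₁ where
  toFun := code
  map_rel' := by
    intro x y h
    rcases h with h | h
    · left; rw [ch_code]; exact List.mem_map_of_mem h
    · right; rw [ch_code]; exact List.mem_map_of_mem h

/-- The relabelling attached to a map `f`. -/
def tf (f : V₀ → V₀) : Lb → Lb
  | .inl v => .inr (some (f v))
  | .inr _ => .inr none

lemma exists_ext (l : List V₀) : ∃ z : V₀, ∀ u ∈ l, G₀.Adj z u := by
  classical
  obtain ⟨z, -, -, hz, -⟩ := (Tr.isRado (H := Unit)).2 l.toFinset ∅ (by simp)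
  exact ⟨z, fun u hu => hz u (by simpa using hu)⟩

open Classical in
/-- choose a vertex adjacent to all elements of `l`, taking the suggestion of the label into
account. -/
noncomputable def pick (h : Lb) (l : List V₀) : V₀ :=
  match h with
  | .inl _ => (exists_ext l).choose
  | .inr none => (exists_ext l).choose
  | .inr (some w) => if ∀ u ∈ l, G₀.Adj w u then w else (exists_ext l).choose

open Classical in
lemma pick_some (w : V₀) (l : List V₀) :
    pick (.inr (some w)) l = if ∀ u ∈ l, G₀.Adj w u then w else (exists_ext l).choose := rfl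

lemma pick_adj (h : Lb) (l : List V₀) : ∀ u ∈ l, G₀.Adj (pick h l) u := by
  classical
  rcases h with v | _ | w
  · exact (exists_ext l).choose_spec
  · exact (exists_ext l).choose_spec
  · rw [pick_some]
    split_ifs with h
    · exact h
    · exact (exists_ext l).choose_spec

/-- decoding, on the children -/
noncomputable def decL : Tr Lb → List V₀
  | .base _ => []
  | .cons a b => pick (Tr.tag a) (decL a) :: decL b

/-- decoding -/
noncomputable def dec (x : Tr Lb) : V₀ := pick (Tr.tag x) (decL x)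

lemma decL_eq (x : Tr Lb) : decL x = (Tr.ch x).map dec := by
  induction x with
  | base h => rfl
  | cons a b _ ih => simp [decL, Tr.ch, ih, dec]

/-- `dec` as a homomorphism -/
noncomputable def decHom : G₁ →g G₀ where
  toFun := dec
  map_rel' := by
    have key : ∀ x y : Tr Lb, x ∈ Tr.ch y → G₀.Adj (dec y) (dec x) := by
      intro x y h
      refine pick_adj _ _ _ ?_
      rw [decL_eq]
      exact List.mem_map_of_mem h
    intro x y h
    rcases h with h | h
    · exact (key x y h).symm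
    · exact key y x h

lemma dec_map_code (f : G₀ →g G₀) (x : V₀) : dec (Tr.map (tf f) (code x)) = f x := by
  classical
  induction hn : Tr.sz x using Nat.strong_induction_on generalizing x with
  | _ n ih =>
    have hch : Tr.ch (Tr.map (tf f) (code x)) = (Tr.ch x).map (fun y => Tr.map (tf f) (code y)) := by
      rw [Tr.ch_map, ch_code, List.map_map]; rfl
    have htag : Tr.tag (Tr.map (tf f) (code x)) = .inr (some (f x)) := by
      rw [code, Tr.map_mk, Tr.tag_mk]; rfl
    unfold dec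
    rw [htag, decL_eq, hch, List.map_map]
    have hl : (Tr.ch x).map (dec ∘ fun y => Tr.map (tf f) (code y)) = (Tr.ch x).map f := by
      apply List.map_congr_left
      intro y hy
      exact ih (Tr.sz y) (by rw [← hn]; exact Tr.sz_ch hy) y rfl
    rw [hl, pick_some, if_pos]
    intro u hu
    obtain ⟨y, hy, rfl⟩ := List.mem_map.1 hu
    exact f.map_rel (Or.inr hy)

/-- the good relabellings -/
def Good (t : Lb → Lb) : Prop := (∀ v, ∃ o, t (.inl v) = .inr o) ∧ ∀ o, t (.inr o) = .inr none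

lemma good_tf (f : V₀ → V₀) : Good (tf f) := ⟨fun _ => ⟨_, rfl⟩, fun _ => rfl⟩

lemma good_comp {t t' : Lb → Lb} (ht : Good t) (ht' : Good t') :
    t ∘ t' = fun _ => .inr none := by
  funext x
  rcases x with v | o
  · obtain ⟨o, ho⟩ := ht'.1 v
    simp [ho, ht.2 o]
  · simp [ht'.2 o, ht.2 none]

lemma good_const : Good (fun _ => .inr none) := ⟨fun _ => ⟨_, rfl⟩, fun _ => rfl⟩

end coding

/-- The random graph has endomorphism monoid of commutative submonoid width at most three. -/
theorem width_random {V : Type} {G : SimpleGraph V} (hG : IsRandomGraph G) :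
    WidthLE (G →g G) 3 := by
  obtain ⟨i⟩ : Nonempty (G ≃g G₁) := exists_iso hG Tr.isRado
  obtain ⟨j⟩ : Nonempty (G ≃g G₀) := exists_iso hG Tr.isRado
  -- conjugation of relabellings
  let B : (Lb → Lb) → (G →g G) := fun t =>
    (i.symm.toHom.comp (Tr.hom t)).comp i.toHom
  have hB : ∀ t x, B t x = i.symm (Tr.map t (i x)) := fun _ _ => rfl
  have hmul : ∀ t t', B t * B t' = B (t ∘ t') := by
    intro t t'
    ext x
    change B t (B t' x) = B (t ∘ t') x
    rw [hB, hB, hB, RelIso.apply_symm_apply, Tr.map_map]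
  let c1 : G →g G := (j.symm.toHom.comp decHom).comp i.toHom
  let c3 : G →g G := (i.symm.toHom.comp codeHom).comp j.toHom
  let C2 : Submonoid (G →g G) :=
    { carrier := {x | x = 1 ∨ ∃ t, Good t ∧ x = B t}
      one_mem' := Or.inl rfl
      mul_mem' := by
        rintro x y (rfl | ⟨t, ht, rfl⟩) (rfl | ⟨t', ht', rfl⟩)
        · left; simp
        · right; exact ⟨t', ht', by simp⟩
        · right; exact ⟨t, ht, by simp⟩
        · right
          exact ⟨_, good_const, by rw [hmul, good_comp ht ht']⟩ }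
  have hC2 : ∀ x ∈ C2, ∀ y ∈ C2, x * y = y * x := by
    rintro x (rfl | ⟨t, ht, rfl⟩) y (rfl | ⟨t', ht', rfl⟩)
    · simp
    · simp
    · simp
    · rw [hmul, hmul, good_comp ht ht', good_comp ht' ht]
  have hpow : ∀ c : G →g G, ∀ x ∈ Submonoid.powers c, ∀ y ∈ Submonoid.powers c, x * y = y * x := by
    rintro c x ⟨a, rfl⟩ y ⟨b, rfl⟩
    exact (Commute.refl c).pow_pow a b
  refine ⟨![Submonoid.powers c1, C2, Submonoid.powers c3], ?_, ?_⟩
  · intro k
    fin_cases k
    · exact hpow c1
    · exact hC2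
    · exact hpow c3
  · intro f
    let f' : G₀ →g G₀ := (j.toHom.comp f).comp j.symm.toHom
    refine ⟨![c1, B (tf f'), c3], ?_, ?_⟩
    · intro k
      fin_cases k
      · exact Submonoid.mem_powers c1
      · exact Or.inr ⟨_, good_tf _, rfl⟩
      · exact Submonoid.mem_powers c3
    · have e : (List.ofFn ![c1, B (tf f'), c3]).prod = c1 * (B (tf f') * c3) := by
        simp [List.ofFn_succ]
      rw [e]
      ext x
      change j.symm (dec (i (B (tf f') (i.symm (code (j x)))))) = f x
      rw [hB, RelIso.apply_symm_apply, RelIso.apply_symm_apply, dec_map_code]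
      change j.symm (j (f (j.symm (j x)))) = f x
      rw [RelIso.symm_apply_apply, RelIso.symm_apply_apply]

/-! ### Domination for monoids of monotone maps of `ℚ` -/

section dom

variable {M : Type} [Monoid M]

/-- An action on `ℚ` by monotone maps. -/
structure MonoAct (φ : M → ℚ → ℚ) : Prop where
  one : ∀ x, φ 1 x = x
  mul : ∀ f g x, φ (f * g) x = φ f (φ g x)
  mono : ∀ f, Monotone (φ f)

/-- A commutative submonoid is eventually dominated by one function. -/
lemma dom_one {φ : M → ℚ → ℚ} (hφ : MonoAct φ) (C : Submonoid M)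
    (hC : ∀ x ∈ C, ∀ y ∈ C, x * y = y * x) :
    ∃ F : ℚ → ℚ, (∀ x, x ≤ F x) ∧ ∀ f ∈ C, ∃ x0 : ℚ, ∀ x, x0 ≤ x → φ f x ≤ F x := by
  classical
  by_cases hb : ∀ x, ∃ b, ∀ f ∈ C, φ f x ≤ b
  · choose b hb using hb
    exact ⟨fun x => max x (b x), fun x => le_max_left _ _,
      fun f hf => ⟨0, fun x _ => (hb x f hf).trans (le_max_right _ _)⟩⟩
  · push Not at hb
    obtain ⟨x, hx⟩ := hb
    choose g hg hgx using hx
    let E : ℕ → ℕ → ℚ := fun k m => φ (g k) (φ (g m) x)
    refine ⟨fun z => max z ((Finset.range (⌈z⌉₊ + 1)).sup' ⟨0, by simp⟩ (E ⌈z⌉₊)),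
      fun z => le_max_left _ _, fun f hf => ⟨(⌈φ f x⌉₊ : ℚ), fun z hz => ?_⟩⟩
    have h1 : z ≤ φ (g (⌈z⌉₊ : ℚ)) x := (Nat.le_ceil z).trans (hgx _).le
    have h2 : φ f z ≤ φ f (φ (g (⌈z⌉₊ : ℚ)) x) := hφ.mono f h1
    rw [← hφ.mul, hC f hf _ (hg _), hφ.mul] at h2
    have h3 : φ f x ≤ φ (g ((⌈φ f x⌉₊ : ℕ) : ℚ)) x := (Nat.le_ceil _).trans (hgx _).le
    have h4 := hφ.mono (g (⌈z⌉₊ : ℚ)) h3
    have h5 : ⌈φ f x⌉₊ ∈ Finset.range (⌈z⌉₊ + 1) := by
      rw [Finset.mem_range, Nat.lt_succ_iff]
      exact_mod_cast hz.trans (Nat.le_ceil z)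
    exact (h2.trans h4).trans ((Finset.le_sup' (E ⌈z⌉₊) h5).trans (le_max_right _ _))

/-- A finite product of commutative submonoids is eventually dominated by one function. -/
lemma dom_prod {φ : M → ℚ → ℚ} (hφ : MonoAct φ) : ∀ (n : ℕ) (C : Fin n → Submonoid M),
    (∀ i, ∀ x ∈ C i, ∀ y ∈ C i, x * y = y * x) →
    ∃ F : ℚ → ℚ, (∀ x, x ≤ F x) ∧ ∀ c : Fin n → M, (∀ i, c i ∈ C i) →
      ∃ x0 : ℚ, ∀ x, x0 ≤ x → φ (List.ofFn c).prod x ≤ F x
  | 0, _, _ => ⟨id, fun _ => le_rfl, fun c _ => ⟨0, fun x _ => by simp [hφ.one]⟩⟩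
  | n + 1, C, hC => by
    obtain ⟨F, hF, hF'⟩ := dom_prod hφ n (fun i => C i.succ) (fun i => hC i.succ)
    obtain ⟨F0, hF0, hF0'⟩ := dom_one hφ (C 0) (hC 0)
    refine ⟨fun x => F0 (F x), fun x => (hF x).trans (hF0 _), fun c hc => ?_⟩
    obtain ⟨a, ha⟩ := hF' (fun i => c i.succ) (fun i => hc i.succ)
    obtain ⟨b, hb⟩ := hF0' (c 0) (hc 0)
    refine ⟨max a b, fun x hx => ?_⟩
    rw [List.ofFn_succ, List.prod_cons, hφ.mul]
    exact (hφ.mono _ (ha x ((le_max_left _ _).trans hx))).trans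
      (hb _ (((le_max_right _ _).trans hx).trans (hF x)))

/-- If the monoid contains arbitrarily fast growing functions then the width is infinite. -/
lemma not_width {φ : M → ℚ → ℚ} (hφ : MonoAct φ)
    (hgrow : ∀ a : ℕ → ℚ, StrictMono a → (∀ k : ℕ, (k : ℚ) ≤ a k) → ∃ f : M, ∀ k : ℕ, φ f k = a k)
    (n : ℕ) : ¬ WidthLE M n := by
  rintro ⟨C, hC, hall⟩
  obtain ⟨F, -, hF⟩ := dom_prod hφ n C hC
  obtain ⟨f, hf⟩ := hgrow (fun k => 1 + k + ∑ i ∈ Finset.range (k + 1), |F i|)
    (strictMono_nat_of_lt_succ fun k => by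
      rw [Finset.sum_range_succ _ (k + 1)]
      have := abs_nonneg (F ((k + 1 : ℕ) : ℚ))
      push_cast at this ⊢
      linarith)
    (fun k => by
      have : (0 : ℚ) ≤ ∑ i ∈ Finset.range (k + 1), |F i| :=
        Finset.sum_nonneg fun i _ => abs_nonneg _
      linarith)
  obtain ⟨c, hc, hcf⟩ := hall f
  obtain ⟨x0, hx0⟩ := hF c hc
  rw [hcf] at hx0
  have h1 := hx0 (⌈x0⌉₊ : ℚ) (Nat.le_ceil _)
  rw [hf] at h1
  have h2 := Finset.single_le_sum (f := fun i : ℕ => |F i|) (s := Finset.range (⌈x0⌉₊ + 1))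
    (fun i _ => abs_nonneg _) (Finset.mem_range.2 (Nat.lt_succ_self ⌈x0⌉₊))
  have h3 := le_abs_self (F (⌈x0⌉₊ : ℚ))
  have h4 : (0 : ℚ) ≤ ⌈x0⌉₊ := Nat.cast_nonneg _
  linarith

end dom

/-! ### The two monoids on `ℚ` -/

lemma endQ (n : ℕ) : ¬ WidthLE (ℚ →o ℚ) n := by
  refine not_width (φ := fun (f : ℚ →o ℚ) => (f : ℚ → ℚ)) ⟨fun _ => rfl, fun _ _ _ => rfl, fun f => f.monotone⟩ ?_ n
  intro a ha _
  refine ⟨⟨fun x => a ⌈x⌉₊, fun x y h => ha.monotone (Nat.ceil_mono h)⟩, fun k => ?_⟩
  change a ⌈(k : ℚ)⌉₊ = a k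
  rw [Nat.ceil_natCast]

/-- The piecewise linear function through the points `(k, a k)`. -/
noncomputable def pl (a : ℕ → ℚ) (x : ℚ) : ℚ :=
  if x < 0 then a 0 + x else a ⌊x⌋₊ + (x - ⌊x⌋₊) * (a (⌊x⌋₊ + 1) - a ⌊x⌋₊)

lemma pl_strictMono {a : ℕ → ℚ} (ha : StrictMono a) : StrictMono (pl a) := by
  intro x y hxy
  have hpos : ∀ k, 0 < a (k + 1) - a k := fun k => sub_pos.2 (ha (Nat.lt_succ_self _))
  unfold pl
  split_ifs with h1 h2 h2
  · linarith
  · push Not at h2
    have h3 : a 0 ≤ a ⌊y⌋₊ := ha.monotone (Nat.zero_le _)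
    have h4 : 0 ≤ (y - ⌊y⌋₊) * (a (⌊y⌋₊ + 1) - a ⌊y⌋₊) :=
      mul_nonneg (sub_nonneg.2 (Nat.floor_le h2)) (hpos _).le
    linarith
  · exfalso; linarith
  · push Not at h1 h2
    have hx1 := Nat.lt_floor_add_one x
    have hy0 := Nat.floor_le h2
    rcases (Nat.floor_mono hxy.le).eq_or_lt with h | h
    · rw [h]
      have h3 := mul_lt_mul_of_pos_right (show x - ⌊y⌋₊ < y - ⌊y⌋₊ by linarith) (hpos ⌊y⌋₊)
      linarith
    · have h5 := mul_lt_mul_of_pos_right (show x - ⌊x⌋₊ < 1 by linarith) (hpos ⌊x⌋₊)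
      have h6 : a (⌊x⌋₊ + 1) ≤ a ⌊y⌋₊ := ha.monotone h
      have h7 : 0 ≤ (y - ⌊y⌋₊) * (a (⌊y⌋₊ + 1) - a ⌊y⌋₊) :=
        mul_nonneg (sub_nonneg.2 hy0) (hpos _).le
      linarith

lemma pl_surjective {a : ℕ → ℚ} (ha : StrictMono a) (ha' : ∀ k : ℕ, (k : ℚ) ≤ a k) :
    Function.Surjective (pl a) := by
  intro y
  by_cases h0 : y < a 0
  · refine ⟨y - a 0, ?_⟩
    unfold pl
    rw [if_pos (by linarith)]
    ring
  · push Not at h0
    have hex : ∃ k : ℕ, y < a (k + 1) := by
      refine ⟨⌈y⌉₊, lt_of_le_of_lt (Nat.le_ceil y) (lt_of_lt_of_le ?_ (ha' (⌈y⌉₊ + 1)))⟩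
      push_cast
      linarith
    classical
    obtain ⟨k, hk1, hk0⟩ : ∃ k : ℕ, y < a (k + 1) ∧ a k ≤ y := by
      refine ⟨Nat.find hex, Nat.find_spec hex, ?_⟩
      rcases Nat.eq_zero_or_pos (Nat.find hex) with h | h
      · rw [h]; exact h0
      · by_contra hc
        push Not at hc
        exact Nat.find_min hex (m := Nat.find hex - 1) (by omega)
          (by rwa [Nat.sub_add_cancel h])
    have hd : 0 < a (k + 1) - a k := sub_pos.2 (ha (Nat.lt_succ_self _))
    obtain ⟨t, ht⟩ : ∃ t, t = (y - a k) / (a (k + 1) - a k) := ⟨_, rfl⟩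
    have ht0 : 0 ≤ t := by rw [ht]; exact div_nonneg (by linarith) hd.le
    have ht1 : t < 1 := by rw [ht]; exact (div_lt_one hd).2 (by linarith)
    have hfl : ⌊(k : ℚ) + t⌋₊ = k := by
      rw [Nat.floor_eq_iff (by positivity)]
      constructor <;> linarith
    refine ⟨k + t, ?_⟩
    unfold pl
    rw [if_neg (by push Not; positivity), hfl]
    have h1 : t * (a (k + 1) - a k) = y - a k := by rw [ht]; exact div_mul_cancel₀ _ hd.ne'
    have h2 : (k : ℚ) + t - k = t := by ring
    rw [h2, h1]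
    ring

lemma autQ (n : ℕ) : ¬ WidthLE (ℚ ≃o ℚ) n := by
  refine not_width (φ := fun (f : ℚ ≃o ℚ) => (f : ℚ → ℚ)) ⟨fun _ => rfl, fun _ _ _ => rfl, fun f => f.monotone⟩ ?_ n
  intro a ha ha'
  refine ⟨(pl_strictMono ha).orderIsoOfSurjective _ (pl_surjective ha ha'), fun k => ?_⟩
  change pl a k = a k
  unfold pl
  rw [if_neg (by push Not; positivity), Nat.floor_natCast]
  simp

/-- **MP_697e97_al.** Q1 has the answer yes: the endomorphism monoid of the random graph is a
product of three commutative submonoids. On the other hand neither `Aut(ℚ, ≤)` nor `End(ℚ, ≤)` is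
a product of finitely many commutative submonoids. -/
theorem result :
    (∀ (V : Type) (G : SimpleGraph V), IsRandomGraph G → WidthLE (G →g G) 3) ∧
    (∀ n, ¬ WidthLE (ℚ →o ℚ) n) ∧ (∀ n, ¬ WidthLE (ℚ ≃o ℚ) n) :=
  ⟨fun _ _ hG => width_random hG, endQ, autQ⟩

end Pool.Agent.Results.MP_697e97_al.RadoWidth
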